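import Pool.Agent.TBP.StmtsA

/-!
# Squad TBP, row STB: one residue class
-/

set_option autoImplicit false

namespace Pool.Agent.TBP.H41

theorem stb : StbStmt := by
  intro J k d σ hσ hk hd
  have hW : 0 < WW J := Nat.pow_pos (primorial_pos _)
  have hg : 0 < Nat.gcd (WW J) k := Nat.gcd_pos_of_pos_left _ hW
  obtain ⟨W', k', hcop, h1, h2⟩ := Nat.exists_coprime (WW J) k
  generalize Nat.gcd (WW J) k = g at *
  have key : ∀ t : ℕ, lf J σ k t / g = ((W' : ℤ) * t + σ * k').natAbs := by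
    intro t
    have h3 : lf J σ k t = g * ((W' : ℤ) * t + σ * k').natAbs := by
      have h5 : (WW J : ℤ) * t + σ * k = (g : ℤ) * ((W' : ℤ) * t + σ * k') := by
        rw [h1, h2]
        push_cast
        ring
      unfold lf
      rw [h5, Int.natAbs_mul, Int.natAbs_natCast]
    rw [h3, Nat.mul_div_cancel_left _ hg]
  have key2 : ∀ t : ℕ, d ∣ lf J σ k t / g ↔ (d : ℤ) ∣ (W' : ℤ) * t + σ * k' := by
    intro t
    rw [key t, Int.natCast_dvd]
  by_cases hex : ∃ t : ℕ, (d : ℤ) ∣ (W' : ℤ) * t + σ * k'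
  · obtain ⟨t0, ht0⟩ := hex
    refine ⟨(t0 : ℤ), fun t ht => ?_⟩
    have h3 := (key2 t).1 ht
    have h4 : (d : ℤ) ∣ (W' : ℤ) * ((t : ℤ) - t0) := by
      have := dvd_sub h3 ht0
      have h5 : (W' : ℤ) * t + σ * k' - ((W' : ℤ) * t0 + σ * k') = (W' : ℤ) * ((t : ℤ) - t0) := by
        ring
      rwa [h5] at this
    have h5 : IsCoprime (d : ℤ) (W' : ℤ) := by
      rw [Nat.isCoprime_iff_coprime]
      have h6 : Nat.gcd d W' ∣ W' := Nat.gcd_dvd_right _ _
      have h7 : ((Nat.gcd d W' : ℕ) : ℤ) ∣ (W' : ℤ) * t0 + σ * k' :=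
        (Int.natCast_dvd_natCast.2 (Nat.gcd_dvd_left _ _)).trans ht0
      have h8 : ((Nat.gcd d W' : ℕ) : ℤ) ∣ σ * k' := by
        have h9 : ((Nat.gcd d W' : ℕ) : ℤ) ∣ (W' : ℤ) * t0 :=
          (Int.natCast_dvd_natCast.2 h6).mul_right _
        exact (dvd_add_right h9).1 h7
      have h9 : ((Nat.gcd d W' : ℕ) : ℤ) ∣ (k' : ℤ) := by
        rcases hσ with rfl | rfl
        · rwa [one_mul] at h8
        · rw [neg_one_mul, dvd_neg] at h8
          exact h8
      have h10 : Nat.gcd d W' ∣ k' := Int.natCast_dvd_natCast.1 h9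
      exact Nat.eq_one_of_dvd_coprimes hcop h6 h10
    exact h5.dvd_of_dvd_mul_left h4
  · refine ⟨0, fun t ht => absurd ⟨t, (key2 t).1 ht⟩ hex⟩

end Pool.Agent.TBP.H41
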